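import Pool.Agent.H144R4.Cyc.Stmts

set_option autoImplicit false

namespace Pool.Agent.H144R4.Cyc.U

open Finset Pool.Agent.H144R4.Cyc

variable {α : Type} [Fintype α] [DecidableEq α]

omit [Fintype α] in
theorem ok_none (u : Option α) : ok u none = 1 := by
  unfold ok
  rw [if_neg]
  rintro ⟨h1, h2⟩
  exact h2 h1

omit [Fintype α] in
theorem ok_ne {u w : Option α} (h : u ≠ w) : ok u w = 1 := by
  unfold ok
  rw [if_neg]
  rintro ⟨h1, _⟩
  exact h h1

theorem W_self (t : ℝ) (x : ℕ → α) (b : α) (i j : ℕ) :
    W t x (some b) i j (some b) = 0 := by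
  have h0 : ok (some b) (some b) = 0 := by
    unfold ok
    simp
  by_cases h : i < j
  · rw [W_step t x _ i j _ h, h0]
    simp
  · rw [W_nil t x _ i j _ (by omega), h0]

theorem W_sum (t : ℝ) (ht0 : 0 < t) (ht1 : t < 1) (x : ℕ → α) (u w : Option α) (i j : ℕ)
    (hij : i ≤ j) (hok : ok u w = 1) :
    ∑ k ∈ Ico i j, t ^ (k - i) * W t x u i k (some (x k)) * W t x (some (x k)) (k + 1) j w =
      (1 - t ^ (j - i)) * W t x u i j w := by
  rcases Nat.eq_or_lt_of_le hij with h | h
  · subst h
    simp
  · rw [W_step t x u i j w h, hok]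
    have h1 : t ^ (j - i) < 1 := pow_lt_one₀ ht0.le ht1 (by omega)
    have h2 : (1 - t ^ (j - i)) ≠ 0 := by
      intro h3
      linarith
    rw [one_mul, mul_inv_cancel_left₀ h2]

theorem UU_rec (t : ℝ) (x : ℕ → α) (β u : Option α) (i j : ℕ) :
    UU t x β u i j = ∑ l ∈ Ico i j, nb β (x l) * t ^ (l - i) * W t x u i l (some (x l)) *
      (t ^ (j - 1 - l) * W t x (some (x l)) (l + 1) j none + UU t x β (some (x l)) (l + 1) j) := by
  unfold UU
  have h1 : ∀ k ∈ Ico i j, nb β (x k) * V t x β u i k (some (x k)) * t ^ (j - 1 - k) *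
      W t x (some (x k)) (k + 1) j none =
      nb β (x k) * t ^ (k - i) * W t x u i k (some (x k)) * (t ^ (j - 1 - k) *
        W t x (some (x k)) (k + 1) j none) +
      ∑ l ∈ Ico i k, nb β (x l) * t ^ (l - i) * W t x u i l (some (x l)) *
        (nb β (x k) * V t x β (some (x l)) (l + 1) k (some (x k)) * t ^ (j - 1 - k) *
          W t x (some (x k)) (k + 1) j none) := by
    intro k _
    rw [V_eq t x β u i k (some (x k)), mul_add, add_mul, add_mul, mul_sum, sum_mul, sum_mul]
    congr 1
    · ring
    · refine sum_congr rfl fun l _ => ?_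
      ring
  rw [sum_congr rfl h1, sum_add_distrib, ← Finset.sum_Ico_Ico_comm', ← sum_add_distrib]
  refine sum_congr rfl fun l _ => ?_
  rw [← mul_sum, mul_add]

theorem UU_none (t : ℝ) (ht0 : 0 < t) (ht1 : t < 1) (x : ℕ → α) (j : ℕ) :
    ∀ (n i : ℕ) (u : Option α), i ≤ j → j - i = n →
      UU t x none u i j = (1 - t ^ (j - i)) * W t x u i j none := by
  intro n
  induction n using Nat.strong_induction_on with
  | _ n ih =>
    intro i u hij hn
    rw [UU_rec, ← W_sum t ht0 ht1 x u none i j hij (ok_none u)]
    refine sum_congr rfl fun l hl => ?_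
    rw [mem_Ico] at hl
    rw [ih (j - (l + 1)) (by omega) (l + 1) (some (x l)) (by omega) rfl]
    have h1 : j - 1 - l = j - (l + 1) := by omega
    have h2 : nb none (x l) = 1 := by
      unfold nb
      simp
    rw [h1, h2]
    ring

theorem UU_some (t : ℝ) (ht0 : 0 < t) (ht1 : t < 1) (x : ℕ → α) (j : ℕ) (b : α) :
    ∀ (n i : ℕ) (u : Option α), i ≤ j → j - i = n → u ≠ some b →
      UU t x (some b) u i j = (1 - t ^ (j - i)) * W t x u i j none -
        ∑ k ∈ Ico i j, if x k = b then W t x u i k (some b) * W t x (some b) (k + 1) j none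
          else 0 := by
  intro n
  induction n using Nat.strong_induction_on with
  | _ n ih =>
    intro i u hij hn hu
    rw [UU_rec, ← W_sum t ht0 ht1 x u none i j hij (ok_none u)]
    have h1 : ∀ l ∈ Ico i j, nb (some b) (x l) * t ^ (l - i) * W t x u i l (some (x l)) *
        (t ^ (j - 1 - l) * W t x (some (x l)) (l + 1) j none +
          UU t x (some b) (some (x l)) (l + 1) j) =
        t ^ (l - i) * W t x u i l (some (x l)) * W t x (some (x l)) (l + 1) j none -
        (if x l = b then t ^ (l - i) * W t x u i l (some b) * W t x (some b) (l + 1) j none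
          else 0) -
        ∑ z ∈ Ico (l + 1) j, (if x z = b then
          (t ^ (l - i) * W t x u i l (some (x l)) * W t x (some (x l)) (l + 1) z (some b)) *
            W t x (some b) (z + 1) j none else 0) := by
      intro l hl
      rw [mem_Ico] at hl
      by_cases hb : x l = b
      · have h2 : nb (some b) (x l) = 0 := by
          unfold nb
          rw [if_pos (by rw [hb])]
        have h3 : ∑ z ∈ Ico (l + 1) j, (if x z = b then
          (t ^ (l - i) * W t x u i l (some (x l)) * W t x (some (x l)) (l + 1) z (some b)) *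
            W t x (some b) (z + 1) j none else 0) = 0 := by
          refine sum_eq_zero fun z _ => ?_
          rw [hb, W_self]
          simp
        rw [h2, h3, if_pos hb, hb]
        ring
      · have h2 : nb (some b) (x l) = 1 := by
          unfold nb
          rw [if_neg]
          intro h
          exact hb (Option.some.inj h).symm
        rw [ih (j - (l + 1)) (by omega) (l + 1) (some (x l)) (by omega) rfl
          (fun h => hb (Option.some.inj h)), h2, if_neg hb]
        have h4 : j - 1 - l = j - (l + 1) := by omega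
        have h5 : ∑ z ∈ Ico (l + 1) j, (if x z = b then
          (t ^ (l - i) * W t x u i l (some (x l)) * W t x (some (x l)) (l + 1) z (some b)) *
            W t x (some b) (z + 1) j none else 0) =
            t ^ (l - i) * W t x u i l (some (x l)) * ∑ z ∈ Ico (l + 1) j, (if x z = b then
              W t x (some (x l)) (l + 1) z (some b) * W t x (some b) (z + 1) j none else 0) := by
          rw [mul_sum]
          refine sum_congr rfl fun z _ => ?_
          split_ifs
          · ring
          · simp
        rw [h5, h4]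
        ring
    rw [sum_congr rfl h1, sum_sub_distrib, sum_sub_distrib, sub_sub]
    congr 1
    rw [Finset.sum_Ico_Ico_comm', ← sum_add_distrib]
    refine sum_congr rfl fun z hz => ?_
    rw [mem_Ico] at hz
    by_cases hb : x z = b
    · simp only [hb, if_true]
      rw [← sum_mul, W_sum t ht0 ht1 x u (some b) i z hz.1 (ok_ne hu)]
      ring
    · simp [hb]

theorem u : StVR → StU := by
  intro _ α _ _ t ht0 ht1 x u i j hij
  exact ⟨UU_none t ht0 ht1 x j (j - i) i u hij rfl,
    fun b hu => UU_some t ht0 ht1 x j b (j - i) i u hij rfl hu⟩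

end Pool.Agent.H144R4.Cyc.U
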